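import Mathlib
import Pool.Agent.Lib.GHShort.Count
import Pool.Agent.Lib.GHShort.Main

set_option autoImplicit false

namespace Pool.Agent.Results.MP_df0165_co.AlmostAll

/-- `G` has a decomposition into copies of `T`: a family of injective homomorphisms `T → G` such
that every edge of `G` is the image of exactly one edge of exactly one copy. -/
def Decomposes {W V : Type} (T : SimpleGraph W) (G : SimpleGraph V) : Prop :=
  ∃ (ι : Type) (f : ι → (T →g G)), (∀ i, Function.Injective (f i)) ∧
    ∀ e ∈ G.edgeSet, ∃! p : ι × Sym2 W, p.2 ∈ T.edgeSet ∧ Sym2.map (⇑(f p.1)) p.2 = e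

/-- The (labelled) `2 m`-regular graphs on `n` vertices. -/
def Regular (n m : ℕ) : Set (SimpleGraph (Fin n)) :=
  {G | ∀ v, (G.neighborSet v).ncard = 2 * m}

/-- **The Graham-Häggkvist conjecture holds for almost all regular graphs.** For every `d ≥ 1`
there is `K` such that for all `m ≥ 1` and all `n`, among the `2 m`-regular graphs on `n` vertices
at most a proportion `K m ^ (2 d) / n` fails to decompose into copies of some tree with `m` edges
and diameter at most `d`. (For `d = m` the condition on the diameter is void, so for every fixed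
`m` almost all `2 m`-regular graphs decompose into copies of each tree with `m` edges.) -/
theorem result : ∀ d : ℕ, 1 ≤ d → ∃ K : ℕ, ∀ m n : ℕ, 1 ≤ m →
    n * {G ∈ Regular n m | ∃ T : SimpleGraph (Fin (m + 1)), T.IsTree ∧
      (∀ x y, T.dist x y ≤ d) ∧ ¬ Decomposes T G}.ncard ≤
        K * m ^ (2 * d) * (Regular n m).ncard := by
  classical
  have hdeg : ∀ (n : ℕ) (G : SimpleGraph (Fin n)) (v : Fin n),
      (G.neighborSet v).ncard = (Finset.univ.filter fun u => G.Adj v u).card := by
    intro n G v
    rw [← Set.ncard_coe_finset]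
    congr 1
    ext u
    simp
  have hreg : ∀ n m : ℕ, Regular n m =
      ((Pool.Agent.Lib.GHShort.Reg (Fin n) (2 * m) ∅ : Finset _) : Set (SimpleGraph (Fin n))) := by
    intro n m
    ext G
    rw [Finset.mem_coe, Pool.Agent.Lib.GHShort.mem_Reg]
    simp only [Regular, Set.mem_setOf_eq, hdeg]
    simp
  intro d hd
  obtain ⟨K, hK⟩ := Pool.Agent.Lib.GHShort.almost_all hd
  refine ⟨K, fun m n hm => ?_⟩
  rw [hreg n m, Set.ncard_coe_finset]
  refine le_trans (Nat.mul_le_mul_left n ?_) (hK m n hm)
  rw [← Set.ncard_coe_finset]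
  refine Set.ncard_le_ncard ?_ (Set.toFinite _)
  rintro G ⟨hG, T, hT, hTd, hdec⟩
  rw [Finset.mem_coe] at hG ⊢
  rw [Finset.mem_filter]
  refine ⟨hG, fun hsd => hdec ?_⟩
  have hcard : T.edgeSet.ncard = m := by
    have h1 := hT.card_edgeFinset
    rw [Fintype.card_fin] at h1
    rw [← SimpleGraph.coe_edgeFinset, Set.ncard_coe_finset]
    omega
  rw [Pool.Agent.Lib.GHShort.mem_Reg] at hG
  obtain ⟨f, hf1, hf2⟩ := Pool.Agent.Lib.GHShort.decomp_of_shortDisj hT hTd
    (fun v => by rw [hcard]; convert hG.1 v) hsd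
  exact ⟨Fin n, f, hf1, hf2⟩

end Pool.Agent.Results.MP_df0165_co.AlmostAll
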