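import Mathlib
import Pool.Agent.Lib.MP_df0165_co.Ap.All

set_option autoImplicit false

namespace Pool.Agent.Results.MP_df0165_co.ApproxAllHosts

/-- **Approximate Graham-Haggkvist theorem for all host graphs.** For all `ε, η > 0` there is
`c > 0` such that for every finite tree `T` with `m ≥ 1` edges and every finite `d`-regular simple
graph `G` with `d ≥ (1 + η) m` (in particular every `2m`-regular graph, `d = 2m`, `η = 1`): if
every vertex of `T` has degree at most `c d / log (d + 1)`, then `G` contains pairwise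
edge-disjoint copies of `T` which cover at least `(1 - ε) e(G)` edges of `G`. -/
theorem result :
    ∀ ε η : ℝ, 0 < ε → 0 < η → ∃ c : ℝ, 0 < c ∧
      ∀ (U : Type) [Fintype U] (T : SimpleGraph U), T.IsTree → 0 < T.edgeSet.ncard →
        ∀ (V : Type) [Fintype V] (G : SimpleGraph V) [DecidableRel G.Adj] (d : ℕ),
          G.IsRegularOfDegree d → (1 + η) * (T.edgeSet.ncard : ℝ) ≤ d →
          (∀ u : U, ((T.neighborSet u).ncard : ℝ) * Real.log (d + 1) ≤ c * d) →
          ∃ (k : ℕ) (f : Fin k → (T →g G)), (∀ i, Function.Injective (f i)) ∧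
            (∀ e : Sym2 V, {q : Fin k × Sym2 U |
              q.2 ∈ T.edgeSet ∧ Sym2.map (⇑(f q.1)) q.2 = e}.Subsingleton) ∧
            (1 - ε) * (G.edgeSet.ncard : ℝ) ≤ k * T.edgeSet.ncard :=
  Pool.Agent.Lib.GHA.stMain

end Pool.Agent.Results.MP_df0165_co.ApproxAllHosts
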