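import Mathlib
import Pool.Agent.Lib.MP_df0165_co.Ex.All

set_option autoImplicit false

/-!
# MP_df0165_co: exact Graham-Häggkvist theorem for expanding and for dense hosts

Let `T` be a tree with `m` edges, at least `η m` leaves and maximum degree at most `c m / log n`,
and let `G` be a `2m`-regular graph on `n` vertices such that either at least `χ m |X|` edges leave
every set `X` of at most `n / 2` vertices, or `n ≤ (4 - χ) m`. Then `G` decomposes into copies
of `T`. Here `c > 0` depends on `χ, η > 0` only.
-/

namespace Pool.Agent.Results.MP_df0165_co.ExactExpanders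

/-- `G` has a decomposition into copies of `T`: a family of injective homomorphisms `T → G` such
that every edge of `G` is the image of exactly one edge of exactly one copy. -/
def Decomposes {W V : Type} (T : SimpleGraph W) (G : SimpleGraph V) : Prop :=
  ∃ (ι : Type) (f : ι → (T →g G)), (∀ i, Function.Injective (f i)) ∧
    ∀ e ∈ G.edgeSet, ∃! p : ι × Sym2 W, p.2 ∈ T.edgeSet ∧ Sym2.map (⇑(f p.1)) p.2 = e

/-- The set of edges of `G` with exactly one end in `X`. -/
def cutEdges {V : Type} (G : SimpleGraph V) (X : Set V) : Set (Sym2 V) :=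
  {e | e ∈ G.edgeSet ∧ ∃ x ∈ X, ∃ y ∉ X, e = s(x, y)}

/-- The set of leaves (vertices of degree `1`) of `T`. -/
def leaves {W : Type} (T : SimpleGraph W) : Set W := {u | (T.neighborSet u).ncard = 1}

/-- **Exact Graham-Häggkvist theorem for expanding and for dense hosts.** For all `χ, η > 0` there
is `c > 0` such that for every tree `T` with `m` edges and at least `η m` leaves and every
`2m`-regular graph `G` on `n` vertices in which every set `X` of at most `n / 2` vertices has at
least `χ m |X|` edges leaving it, or with `n ≤ (4 - χ) m`: if all degrees of `T` are at most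
`c m / log n`, then `G` decomposes into copies of `T`. -/
theorem result :
    ∀ χ η : ℝ, 0 < χ → 0 < η → ∃ c : ℝ, 0 < c ∧
      ∀ (W : Type) [Fintype W] (T : SimpleGraph W), T.IsTree →
        η * (T.edgeSet.ncard : ℝ) ≤ (leaves T).ncard →
        ∀ (V : Type) [Fintype V] (G : SimpleGraph V) [DecidableRel G.Adj],
          G.IsRegularOfDegree (2 * T.edgeSet.ncard) →
          ((∀ X : Set V, 2 * X.ncard ≤ Fintype.card V →
              χ * T.edgeSet.ncard * X.ncard ≤ (cutEdges G X).ncard) ∨
            (Fintype.card V : ℝ) ≤ (4 - χ) * T.edgeSet.ncard) →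
          (∀ u : W, ((T.neighborSet u).ncard : ℝ) * Real.log (Fintype.card V)
            ≤ c * T.edgeSet.ncard) →
          Decomposes T G := by
  intro χ η hχ hη
  obtain ⟨c1, hc1, h1⟩ := Pool.Agent.Lib.GHE.main χ η hχ hη
  obtain ⟨c2, hc2, h2⟩ := Pool.Agent.Lib.GHE.main (χ / 2) η (by positivity) hη
  refine ⟨min c1 c2, lt_min hc1 hc2, ?_⟩
  intro W _ T hT hl V _ G _ hreg hor hdeg
  have hm : (0 : ℝ) ≤ T.edgeSet.ncard := Nat.cast_nonneg _
  rcases hor with hcut | hn
  · exact h1 W T hT hl V G hreg hcut
      (fun u => (hdeg u).trans (mul_le_mul_of_nonneg_right (min_le_left _ _) hm))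
  · refine h2 W T hT hl V G hreg ?_
      (fun u => (hdeg u).trans (mul_le_mul_of_nonneg_right (min_le_right _ _) hm))
    exact Pool.Agent.Lib.GHE.Dense.dense_cut_set G _ χ hreg hn

end Pool.Agent.Results.MP_df0165_co.ExactExpanders
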