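import Mathlib
import Pool.Agent.Lib.MP_df0165_co.Frac.Final

set_option autoImplicit false

namespace Pool.Agent.Results.MP_df0165_co.Fractional

/-- **Fractional Graham-Haggkvist theorem.** For every finite tree `T` with `m ≥ 1` edges and every
finite simple graph `G` of minimum degree at least `2m` (in particular every `2m`-regular `G`)
there are `N ≥ 1` and a finite family of copies of `T` in `G` (injective homomorphisms) such that
every edge of `G` lies in exactly `N` of the copies. -/
theorem result :
    ∀ (W : Type) [Fintype W] (T : SimpleGraph W), T.IsTree → 0 < T.edgeSet.ncard →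
      ∀ (V : Type) [Fintype V] (G : SimpleGraph V) [DecidableRel G.Adj],
        (∀ v, 2 * T.edgeSet.ncard ≤ G.degree v) →
        ∃ (N k : ℕ) (f : Fin k → (T →g G)), 0 < N ∧
          (∀ i, Function.Injective (f i)) ∧
          ∀ e ∈ G.edgeSet,
            {p : Fin k × Sym2 W |
              p.2 ∈ T.edgeSet ∧ Sym2.map (⇑(f p.1)) p.2 = e}.ncard = N := by
  intro W _ T hT hm V _ G _ hdeg
  apply Pool.Agent.Lib.FracTree.fractional_graham_haggkvist T hT hm G
  intro v
  refine le_trans (hdeg v) (le_of_eq ?_)
  rw [← SimpleGraph.card_neighborFinset_eq_degree]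
  congr 1
  ext y
  simp

end Pool.Agent.Results.MP_df0165_co.Fractional
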